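import Mathlib

set_option autoImplicit false

namespace Pool.Agent.Results.MP_f93cde_pr.Counterexample

open MeasureTheory ProbabilityTheory Finset

variable {N : ℕ}

def sp (b : Bool) : ℝ := if b then 1 else -1

def se (σ : Fin N → Bool) (e : Finset (Fin N)) : ℝ := ∏ i ∈ e, sp (σ i)

noncomputable def wt (E : Finset (Finset (Fin N))) (β : ℝ) (K : E → ℝ) (σ : Fin N → Bool) : ℝ :=
  Real.exp (β * ∑ e : E, K e * se σ e)

noncomputable def gibbs (E : Finset (Finset (Fin N))) (β : ℝ) (K : E → ℝ) (σ : Fin N → Bool) : ℝ :=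
  wt E β K σ / ∑ σ', wt E β K σ'

noncomputable def ov (σ τ : Fin N → Bool) : ℝ := (∑ i, sp (σ i) * sp (τ i)) / N

noncomputable def R2 (E : Finset (Finset (Fin N))) (β : ℝ) (K K' : E → ℝ) : ℝ :=
  ∑ σ, ∑ τ, gibbs E β K σ * gibbs E β K' τ * ov σ τ ^ 2

noncomputable def gg : Measure (ℝ × ℝ) := (gaussianReal 0 1).prod (gaussianReal 0 1)

noncomputable def bern (p : ℝ) : Measure Bool :=
  ENNReal.ofReal p • Measure.dirac true + ENNReal.ofReal (1 - p) • Measure.dirac false

noncomputable def chaosC (E : Finset (Finset (Fin N))) (β t : ℝ) : ℝ :=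
  ∫ ω : E → ℝ × ℝ, R2 E β (fun e => (ω e).1)
    (fun e => Real.exp (-t) * (ω e).1 + √(1 - Real.exp (-2 * t)) * (ω e).2)
    ∂(Measure.pi fun _ => gg)

noncomputable def chaosD (E : Finset (Finset (Fin N))) (β t : ℝ) : ℝ :=
  ∫ ω : E → (ℝ × ℝ) × Bool, R2 E β (fun e => (ω e).1.1)
    (fun e => if (ω e).2 then (ω e).1.1 else (ω e).1.2)
    ∂(Measure.pi fun _ => gg.prod (bern (Real.exp (-t))))

def ball (E : Finset (Finset (Fin N))) (v : Fin N) : ℕ → Finset (Fin N)
  | 0 => {v}
  | r + 1 => ball E v r ∪ (E.filter fun e => (e ∩ ball E v r).Nonempty).biUnion id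

def edge (N k j : ℕ) : Finset (Fin N) := univ.filter fun i => i.val / 4 = k ∧ i.val % 4 ≠ j

def EE (N : ℕ) : Finset (Finset (Fin N)) :=
  (range (N / 4) ×ˢ ({1, 2, 3} : Finset ℕ)).image fun p => edge N p.1 p.2

lemma mem_EE (e : Finset (Fin N)) :
    e ∈ EE N ↔ ∃ k j, k < N / 4 ∧ (j = 1 ∨ j = 2 ∨ j = 3) ∧ edge N k j = e := by
  simp [EE, and_assoc]

def vx (k : ℕ) (hk : k < N / 4) (r : ℕ) (hr : r < 4) : Fin N := ⟨4 * k + r, by omega⟩

lemma edge1 (k : ℕ) (hk : k < N / 4) : edge N k 1 =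
    {vx k hk 0 (by omega), vx k hk 2 (by omega), vx k hk 3 (by omega)} := by
  ext i; simp [edge, vx, Fin.ext_iff]; omega

lemma edge2 (k : ℕ) (hk : k < N / 4) : edge N k 2 =
    {vx k hk 0 (by omega), vx k hk 1 (by omega), vx k hk 3 (by omega)} := by
  ext i; simp [edge, vx, Fin.ext_iff]; omega

lemma edge3 (k : ℕ) (hk : k < N / 4) : edge N k 3 =
    {vx k hk 0 (by omega), vx k hk 1 (by omega), vx k hk 2 (by omega)} := by
  ext i; simp [edge, vx, Fin.ext_iff]; omega

lemma prod3 (f : Fin N → ℝ) (a b c : Fin N) (h1 : a ≠ b) (h2 : a ≠ c) (h3 : b ≠ c) :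
    ∏ i ∈ ({a, b, c} : Finset (Fin N)), f i = f a * (f b * f c) := by
  rw [prod_insert (by simp [h1, h2]), prod_pair h3]

lemma card_edge (e : Finset (Fin N)) (he : e ∈ EE N) : e.card = 3 := by
  obtain ⟨k, j, hk, hj, rfl⟩ := (mem_EE e).mp he
  rcases hj with rfl | rfl | rfl
  · rw [edge1 k hk]; exact card_eq_three.mpr ⟨_, _, _, by simp [vx], by simp [vx], by simp [vx], rfl⟩
  · rw [edge2 k hk]; exact card_eq_three.mpr ⟨_, _, _, by simp [vx], by simp [vx], by simp [vx], rfl⟩
  · rw [edge3 k hk]; exact card_eq_three.mpr ⟨_, _, _, by simp [vx], by simp [vx], by simp [vx], rfl⟩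

lemma ball_sub (v : Fin N) (r : ℕ) : ∀ i ∈ ball (EE N) v r, i.val / 4 = v.val / 4 := by
  induction r with
  | zero => simp [ball]
  | succ r ih =>
    intro i hi
    simp only [ball, mem_union, mem_biUnion, mem_filter, id] at hi
    rcases hi with hi | ⟨e, ⟨he, w, hw⟩, hi⟩
    · exact ih i hi
    · obtain ⟨k, j, -, -, rfl⟩ := (mem_EE e).mp he
      have h1 := ih w (mem_inter.mp hw).2
      have h2 := (mem_inter.mp hw).1
      simp only [edge, mem_filter, mem_univ, true_and] at h2 hi
      omega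

lemma ball_card (v : Fin N) (r : ℕ) : (ball (EE N) v r).card ≤ 4 := by
  rw [← card_range 4]
  refine card_le_card_of_injOn (fun i => i.val % 4) (fun i _ => ?_) fun i hi j hj h => ?_
  · simp; omega
  · have h1 := ball_sub v r i hi
    have h2 := ball_sub v r j hj
    simp only at h
    ext; omega

def flip (p : ℕ → Prop) [DecidablePred p] (σ : Fin N → Bool) : Fin N → Bool := fun i => if p i then !σ i else σ i

lemma flip_flip (p : ℕ → Prop) [DecidablePred p] : Function.Involutive (flip (N := N) p) := by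
  intro σ; funext i; unfold flip; split_ifs <;> simp

def sg (p : ℕ → Prop) [DecidablePred p] (i : ℕ) : ℝ := if p i then -1 else 1

lemma sp_flip (p : ℕ → Prop) [DecidablePred p] (σ : Fin N → Bool) (i : Fin N) :
    sp (flip p σ i) = sg p i * sp (σ i) := by
  unfold flip sg sp; split_ifs <;> simp_all

lemma se_flip (p : ℕ → Prop) [DecidablePred p] (σ : Fin N → Bool) (e : Finset (Fin N)) :
    se (flip p σ) e = (∏ i ∈ e, sg p i) * se σ e := by
  simp only [se, sp_flip, prod_mul_distrib]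

lemma sum_flip (p : ℕ → Prop) [DecidablePred p] (F : (Fin N → Bool) → ℝ) : ∑ σ, F (flip p σ) = ∑ σ, F σ :=
  Equiv.sum_comp (flip_flip p).toPerm F

lemma sp_sq (b : Bool) : sp b * sp b = 1 := by cases b <;> simp [sp]

lemma se_cases (σ : Fin N → Bool) (e : Finset (Fin N)) : se σ e = 1 ∨ se σ e = -1 := by
  rw [← mul_self_eq_one_iff, se, ← prod_mul_distrib]
  simp [sp_sq]

noncomputable def th (x : ℝ) : ℝ := 2 / (1 + Real.exp (-2 * x)) - 1

lemma th_cont : Continuous th := by
  unfold th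
  refine (continuous_const.div (by fun_prop) fun x => by positivity).sub continuous_const

lemma th_mono : StrictMono th := by
  intro x y h
  have h1 : Real.exp (-2 * y) < Real.exp (-2 * x) := Real.exp_lt_exp.mpr (by linarith)
  have : 2 / (1 + Real.exp (-2 * x)) < 2 / (1 + Real.exp (-2 * y)) :=
    div_lt_div_of_pos_left (by norm_num) (by positivity) (by linarith)
  unfold th; linarith

lemma th_neg (x : ℝ) : th (-x) = -th x := by
  have h : Real.exp (-2 * -x) = (Real.exp (-2 * x))⁻¹ := by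
    rw [← Real.exp_neg]; congr 1; ring
  unfold th
  rw [h]
  have := Real.exp_pos (-2 * x)
  field_simp
  ring

lemma th_zero : th 0 = 0 := by
  have := th_neg 0
  rw [neg_zero] at this
  linarith

lemma th_abs (x : ℝ) : |th x| ≤ 1 := by
  have h := Real.exp_pos (-2 * x)
  have h1 : 0 < 2 / (1 + Real.exp (-2 * x)) := by positivity
  have h2 : 2 / (1 + Real.exp (-2 * x)) ≤ 2 := by
    rw [div_le_iff₀ (by positivity)]; linarith
  unfold th
  rw [abs_le]; constructor <;> linarith

lemma th_key (x s : ℝ) (hs : s = 1 ∨ s = -1) :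
    s * (1 - Real.exp (-2 * (x * s))) = th x * (1 + Real.exp (-2 * (x * s))) := by
  have k : ∀ y, 1 - Real.exp (-2 * y) = th y * (1 + Real.exp (-2 * y)) := by
    intro y
    have := Real.exp_pos (-2 * y)
    unfold th; field_simp; ring
  rcases hs with rfl | rfl
  · rw [mul_one, one_mul, k]
  · rw [k, mul_neg_one, th_neg]; ring

lemma step (E : Finset (Finset (Fin N))) (β : ℝ) (K : E → ℝ) (p : ℕ → Prop) [DecidablePred p] (e0 : E)
    (hp : ∀ e : E, ∏ i ∈ e.1, sg p i = if e = e0 then -1 else 1) (g : (Fin N → Bool) → ℝ)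
    (hg : ∀ σ, g (flip p σ) = g σ) :
    ∑ σ, se σ e0 * g σ * wt E β K σ = th (β * K e0) * ∑ σ, g σ * wt E β K σ := by
  have hw : ∀ σ, wt E β K (flip p σ) = wt E β K σ * Real.exp (-2 * (β * K e0 * se σ e0)) := by
    intro σ
    unfold wt
    rw [← Real.exp_add]
    congr 1
    have : ∀ e : E, K e * se (flip p σ) e =
        K e * se σ e - if e = e0 then 2 * (K e0 * se σ e0) else 0 := by
      intro e
      rw [se_flip, hp]
      split_ifs with h
      · subst h; ring
      · ring
    simp only [this, sum_sub_distrib, sum_ite_eq', mem_univ, if_true]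
    ring
  have h1 := sum_flip p fun σ => se σ e0 * g σ * wt E β K σ
  have h2 := sum_flip p fun σ => g σ * wt E β K σ
  simp only [hg, hw, se_flip, hp, if_true] at h1 h2
  have h3 : ∑ σ, (se σ e0 * g σ * wt E β K σ +
      -1 * se σ e0 * g σ * (wt E β K σ * Real.exp (-2 * (β * K e0 * se σ e0)))) =
      th (β * K e0) * ∑ σ, (g σ * wt E β K σ +
      g σ * (wt E β K σ * Real.exp (-2 * (β * K e0 * se σ e0)))) := by
    rw [mul_sum]
    refine sum_congr rfl fun σ _ => ?_
    have := th_key (β * K e0) (se σ e0) (se_cases σ e0)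
    linear_combination (g σ * wt E β K σ) * this
  rw [sum_add_distrib, sum_add_distrib, h1, h2] at h3
  linarith

noncomputable def mag (E : Finset (Finset (Fin N))) (β : ℝ) (K : E → ℝ) (i : Fin N) : ℝ :=
  ∑ σ, gibbs E β K σ * sp (σ i)

lemma Z_pos (E : Finset (Finset (Fin N))) (β : ℝ) (K : E → ℝ) : 0 < ∑ σ, wt E β K σ :=
  sum_pos (fun _ _ => Real.exp_pos _) univ_nonempty

def ed (k : ℕ) (hk : k < N / 4) (j : Fin 3) : EE N :=
  ⟨edge N k (j + 1), (mem_EE _).mpr ⟨k, j + 1, hk, by omega, rfl⟩⟩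

lemma edge_inj (k k' j j' : ℕ) (hk : k < N / 4) (hj : j = 1 ∨ j = 2 ∨ j = 3)
    (hj' : j' = 1 ∨ j' = 2 ∨ j' = 3) (h : edge N k j = edge N k' j') : k = k' ∧ j = j' := by
  have h1 : vx k hk 0 (by omega) ∈ edge N k j := by simp [edge, vx]; omega
  have h2 : vx k hk j (by omega) ∉ edge N k j := by simp [edge, vx]; omega
  rw [h] at h1 h2
  simp [edge, vx] at h1 h2
  omega

lemma tri (P Q R S : Prop) [Decidable P] [Decidable Q] [Decidable R] [Decidable S]
    (h : S ↔ (P ↔ (Q ↔ R))) : (if P then (-1 : ℝ) else 1) *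
      ((if Q then -1 else 1) * (if R then -1 else 1)) = if S then -1 else 1 := by
  by_cases P <;> by_cases Q <;> by_cases R <;> by_cases S <;> simp_all

lemma sign_ed (k : ℕ) (hk : k < N / 4) (j : Fin 3) (e : EE N) :
    ∏ i ∈ e.1, sg (fun n => n = 4 * k ∨ n = 4 * k + (j + 1)) i =
      if e = ed k hk j then -1 else 1 := by
  obtain ⟨e, he⟩ := e
  obtain ⟨k', j', hk', hj', rfl⟩ := (mem_EE e).mp he
  have hiff : ((⟨edge N k' j', he⟩ : EE N) = ed k hk j) ↔ (k' = k ∧ j' = j + 1) := by
    constructor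
    · intro h
      exact edge_inj k' k j' (j + 1) hk' hj' (by omega) (congrArg Subtype.val h)
    · rintro ⟨rfl, rfl⟩; rfl
  simp only [hiff]
  have hj := j.2
  rcases hj' with rfl | rfl | rfl
  · rw [edge1 k' hk', prod3 (fun i => sg _ i) _ _ _ (by simp [vx]) (by simp [vx]) (by simp [vx])]
    exact tri _ _ _ _ (by simp only [vx]; omega)
  · rw [edge2 k' hk', prod3 (fun i => sg _ i) _ _ _ (by simp [vx]) (by simp [vx]) (by simp [vx])]
    exact tri _ _ _ _ (by simp only [vx]; omega)
  · rw [edge3 k' hk', prod3 (fun i => sg _ i) _ _ _ (by simp [vx]) (by simp [vx]) (by simp [vx])]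
    exact tri _ _ _ _ (by simp only [vx]; omega)

lemma ed_inj (k : ℕ) (hk : k < N / 4) : Function.Injective (ed k hk) := by
  intro j j' h
  have := edge_inj k k (j + 1) (j' + 1) hk (by omega) (by omega) (congrArg Subtype.val h)
  ext; omega

lemma mag_center (β : ℝ) (K : EE N → ℝ) (k : ℕ) (hk : k < N / 4) :
    mag (EE N) β K (vx k hk 0 (by omega)) = ∏ j, th (β * K (ed k hk j)) := by
  have inv : ∀ j j' : Fin 3, j' ≠ j → ∀ σ : Fin N → Bool,
      se (flip (fun n => n = 4 * k ∨ n = 4 * k + (j + 1)) σ) (ed k hk j') =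
        se σ (ed k hk j') := by
    intro j j' h σ
    rw [se_flip, sign_ed k hk j, if_neg ((ed_inj k hk).ne h), one_mul]
  have h0 := step _ β K _ _ (sign_ed k hk 0) (fun σ => se σ (ed k hk 1) * se σ (ed k hk 2))
    fun σ => by rw [inv 0 1 (by decide), inv 0 2 (by decide)]
  have h1 := step _ β K _ _ (sign_ed k hk 1) (fun σ => se σ (ed k hk 2))
    fun σ => by rw [inv 1 2 (by decide)]
  have h2 := step _ β K _ _ (sign_ed k hk 2) (fun _ => 1) fun _ => rfl
  simp only [mul_one, one_mul] at h2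
  rw [h1, h2] at h0
  have h3 : ∀ σ : Fin N → Bool, se σ (ed k hk 0) * (se σ (ed k hk 1) * se σ (ed k hk 2)) =
      sp (σ (vx k hk 0 (by omega))) := by
    intro σ
    change se σ (edge N k 1) * (se σ (edge N k 2) * se σ (edge N k 3)) = _
    rw [edge1 k hk, edge2 k hk, edge3 k hk]
    unfold se
    rw [prod3 _ _ _ _ (by simp [vx]) (by simp [vx]) (by simp [vx]),
      prod3 _ _ _ _ (by simp [vx]) (by simp [vx]) (by simp [vx]),
      prod3 _ _ _ _ (by simp [vx]) (by simp [vx]) (by simp [vx])]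
    generalize σ (vx k hk 0 _) = a
    generalize σ (vx k hk 1 _) = b
    generalize σ (vx k hk 2 _) = c
    generalize σ (vx k hk 3 _) = d
    cases a <;> cases b <;> cases c <;> cases d <;> simp [sp]
  simp only [h3] at h0
  have hZ := Z_pos (EE N) β K
  unfold mag gibbs
  simp only [div_mul_eq_mul_div]
  rw [← sum_div, div_eq_iff hZ.ne', Fin.prod_univ_three]
  simp only [mul_comm (wt _ _ _ _)]
  rw [h0]; ring

lemma mag_zero (β : ℝ) (K : EE N → ℝ) (i : Fin N) (hi : ¬ (i.val % 4 = 0 ∧ i.val / 4 < N / 4)) :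
    mag (EE N) β K i = 0 := by
  let p : ℕ → Prop := fun n => n / 4 = i.val / 4 ∧ (n % 4 ≠ 0 ∨ N / 4 ≤ n / 4)
  have hp : ∀ e : EE N, ∏ i ∈ e.1, sg p i = 1 := by
    rintro ⟨e, he⟩
    obtain ⟨k', j', hk', hj', rfl⟩ := (mem_EE e).mp he
    have p0 : p (4 * k' + 0) ↔ False := ⟨fun h => by simp only [p] at h; omega, False.elim⟩
    have p1 : p (4 * k' + 1) ↔ k' = i.val / 4 := by simp only [p]; omega
    have p2 : p (4 * k' + 2) ↔ k' = i.val / 4 := by simp only [p]; omega
    have p3 : p (4 * k' + 3) ↔ k' = i.val / 4 := by simp only [p]; omega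
    rcases hj' with rfl | rfl | rfl
    · simp only
      rw [edge1 k' hk', prod3 (fun i => sg _ i) _ _ _ (by simp [vx]) (by simp [vx]) (by simp [vx])]
      exact (tri _ _ _ False (by
        simp only [vx, p0, p1, p2, p3]; tauto)).trans (if_neg id)
    · simp only
      rw [edge2 k' hk', prod3 (fun i => sg _ i) _ _ _ (by simp [vx]) (by simp [vx]) (by simp [vx])]
      exact (tri _ _ _ False (by
        simp only [vx, p0, p1, p2, p3]; tauto)).trans (if_neg id)
    · simp only
      rw [edge3 k' hk', prod3 (fun i => sg _ i) _ _ _ (by simp [vx]) (by simp [vx]) (by simp [vx])]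
      exact (tri _ _ _ False (by
        simp only [vx, p0, p1, p2, p3]; tauto)).trans (if_neg id)
  have hw : ∀ σ, wt (EE N) β K (flip p σ) = wt (EE N) β K σ := by
    intro σ
    simp only [wt, se_flip, hp, one_mul]
  have hs : sg p i = -1 := by
    simp only [sg, p]
    rw [if_pos ⟨trivial, by omega⟩]
  have h1 := sum_flip p fun σ => gibbs (EE N) β K σ * sp (σ i)
  simp only [gibbs, hw, sp_flip, hs, neg_one_mul, mul_neg, sum_neg_distrib] at h1
  unfold mag gibbs
  linarith

lemma gibbs_nonneg (E : Finset (Finset (Fin N))) (β : ℝ) (K : E → ℝ) (σ : Fin N → Bool) :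
    0 ≤ gibbs E β K σ := div_nonneg (Real.exp_pos _).le (Z_pos E β K).le

lemma gibbs_sum (E : Finset (Finset (Fin N))) (β : ℝ) (K : E → ℝ) : ∑ σ, gibbs E β K σ = 1 := by
  unfold gibbs
  rw [← sum_div, div_self (Z_pos E β K).ne']

lemma gg_sum (E : Finset (Finset (Fin N))) (β : ℝ) (K K' : E → ℝ) (c : ℝ) :
    ∑ σ, ∑ τ, gibbs E β K σ * gibbs E β K' τ * c = c := by
  simp only [← sum_mul, ← mul_sum, gibbs_sum, one_mul]

lemma R2_lower (E : Finset (Finset (Fin N))) (β : ℝ) (K K' : E → ℝ) (a : ℝ) :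
    2 * a / N * (∑ i, mag E β K i * mag E β K' i) - a ^ 2 ≤ R2 E β K K' := by
  have h1 : ∑ i, mag E β K i * mag E β K' i =
      ∑ σ, ∑ τ, gibbs E β K σ * gibbs E β K' τ * ∑ i, sp (σ i) * sp (τ i) := by
    simp only [mag, sum_mul_sum]
    simp only [mul_sum]
    rw [sum_comm]
    refine sum_congr rfl fun σ _ => ?_
    rw [sum_comm]
    refine sum_congr rfl fun τ _ => sum_congr rfl fun i _ => by ring
  rw [h1, ← gg_sum E β K K' (a ^ 2), mul_sum, ← sum_sub_distrib]
  refine sum_le_sum fun σ _ => ?_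
  rw [mul_sum, ← sum_sub_distrib]
  refine sum_le_sum fun τ _ => ?_
  have h2 := mul_nonneg (mul_nonneg (gibbs_nonneg E β K σ) (gibbs_nonneg E β K' τ))
    (sq_nonneg (ov σ τ - a))
  have h3 : 2 * a / N * (gibbs E β K σ * gibbs E β K' τ * ∑ i, sp (σ i) * sp (τ i)) =
      gibbs E β K σ * gibbs E β K' τ * (2 * a * ov σ τ) := by unfold ov; ring
  rw [h3]
  nlinarith

lemma R2_bound (E : Finset (Finset (Fin N))) (β : ℝ) (K K' : E → ℝ) : ‖R2 E β K K'‖ ≤ 1 := by
  have h0 : ∀ σ τ, 0 ≤ gibbs E β K σ * gibbs E β K' τ := fun σ τ =>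
    mul_nonneg (gibbs_nonneg E β K σ) (gibbs_nonneg E β K' τ)
  rw [R2, Real.norm_of_nonneg (sum_nonneg fun σ _ => sum_nonneg fun τ _ =>
    mul_nonneg (h0 σ τ) (sq_nonneg _)), ← gg_sum E β K K' 1]
  refine sum_le_sum fun σ _ => sum_le_sum fun τ _ => mul_le_mul_of_nonneg_left ?_ (h0 σ τ)
  rw [sq_le_one_iff_abs_le_one, ov, abs_div, Nat.abs_cast]
  refine div_le_one_of_le₀ ((abs_sum_le_sum_abs _ _).trans ?_) (Nat.cast_nonneg _)
  have : ∀ i, |sp (σ i) * sp (τ i)| = 1 := fun i => by
    cases σ i <;> cases τ i <;> simp [sp]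
  simp [this]

lemma main {Ω : Type} [MeasurableSpace Ω] (ν : Measure Ω) [IsProbabilityMeasure ν] (a b : Ω → ℝ)
    (ha : Measurable a) (hb : Measurable b) (β : ℝ) (c : ℝ)
    (hc : ∫ x, th (β * a x) * th (β * b x) ∂ν = c) (hc0 : 0 < c) (hN : 4 ≤ N) :
    (c ^ 3 / 8) ^ 2 ≤ ∫ ω : EE N → Ω, R2 (EE N) β (fun e => a (ω e)) (fun e => b (ω e))
      ∂(Measure.pi fun _ => ν) := by
  classical
  set μ : Measure (EE N → Ω) := Measure.pi fun _ => ν
  have hth := th_cont.measurable
  let M : Fin N → (EE N → Ω) → ℝ := fun i ω =>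
    mag (EE N) β (fun e => a (ω e)) i * mag (EE N) β (fun e => b (ω e)) i
  let Cn : Finset (Fin N) := univ.filter fun i => i.val % 4 = 0 ∧ i.val / 4 < N / 4
  have hM : ∀ i, Integrable (M i) μ ∧ ∫ ω, M i ω ∂μ = if i ∈ Cn then c ^ 3 else 0 := by
    intro i
    by_cases hi : i.val % 4 = 0 ∧ i.val / 4 < N / 4
    · have e : i = vx (i.val / 4) hi.2 0 (by omega) := by ext; simp [vx]; omega
      have hf : M i = fun ω => ∏ e : EE N, if e ∈ univ.image (ed _ hi.2) then
          th (β * a (ω e)) * th (β * b (ω e)) else 1 := by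
        funext ω
        simp only [M]
        have m1 := fun K => mag_center β K _ hi.2
        simp only [← e] at m1
        rw [m1, m1, ← prod_mul_distrib, prod_ite_mem, univ_inter,
          prod_image fun x _ y _ h => ed_inj _ _ h]
      rw [hf, if_pos (by simpa [Cn] using hi)]
      constructor
      · refine Integrable.of_bound (C := 1) (Measurable.aestronglyMeasurable ?_)
          (Filter.Eventually.of_forall fun ω => ?_)
        · refine Finset.measurable_prod _ fun e _ => ?_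
          split_ifs <;> fun_prop
        · rw [norm_prod]
          refine prod_le_one (fun _ _ => norm_nonneg _) fun e _ => ?_
          split_ifs
          · rw [norm_mul]
            exact mul_le_one₀ (th_abs _) (norm_nonneg _) (th_abs _)
          · simp
      · rw [integral_fintype_prod_eq_prod (fun (e : EE N) (x : Ω) =>
          if e ∈ univ.image (ed _ hi.2) then th (β * a x) * th (β * b x) else 1)]
        have : ∀ e : EE N, ∫ x, (if e ∈ univ.image (ed _ hi.2) then th (β * a x) * th (β * b x)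
            else 1) ∂ν = if e ∈ univ.image (ed _ hi.2) then c else 1 := by
          intro e
          split_ifs
          · exact hc
          · simp
        simp only [this]
        rw [prod_ite_mem, univ_inter, prod_image fun x _ y _ h => ed_inj _ _ h]
        simp
    · have hf : M i = fun _ => 0 := by
        funext ω
        simp only [M]
        rw [mag_zero _ _ _ hi, zero_mul]
      rw [hf, if_neg (by simpa [Cn] using hi)]
      simp
  have hcard : N / 4 ≤ Cn.card := by
    have := card_le_card_of_injOn (s := (univ : Finset (Fin (N / 4)))) (t := Cn)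
      (fun k => vx k.1 k.2 0 (by omega)) (fun k _ => by
        have := k.2
        simp [Cn, vx]) fun k _ l _ h => by
        simp [vx] at h
        ext; omega
    simpa using this
  have hS : Integrable (fun ω => ∑ i, M i ω) μ := integrable_finsetSum _ fun i _ => (hM i).1
  have hR : Integrable (fun ω : EE N → Ω =>
      R2 (EE N) β (fun e => a (ω e)) (fun e => b (ω e))) μ := by
    refine Integrable.of_bound (C := 1) (Measurable.aestronglyMeasurable ?_)
      (Filter.Eventually.of_forall fun ω => R2_bound _ _ _ _)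
    unfold R2 gibbs wt
    fun_prop
  refine le_trans ?_ (integral_mono ((hS.const_mul (2 * (c ^ 3 / 8) / N)).sub (integrable_const _))
    hR fun ω => R2_lower _ β _ _ (c ^ 3 / 8))
  simp only [Pi.sub_apply]
  rw [integral_sub (hS.const_mul _) (integrable_const _), integral_const_mul,
    integral_finsetSum _ fun i _ => (hM i).1]
  simp only [fun i => (hM i).2, sum_ite_mem, univ_inter, sum_const, nsmul_eq_mul, integral_const,
    probReal_univ, one_smul]
  have h8 : (N : ℝ) ≤ 8 * Cn.card := by exact_mod_cast (by omega : N ≤ 8 * Cn.card)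
  have hN0 : (0 : ℝ) < N := by exact_mod_cast (by omega : 0 < N)
  have hc3 : 0 < c ^ 3 := by positivity
  have : 1 / 8 ≤ (Cn.card : ℝ) / N := by rw [div_le_div_iff₀ (by norm_num) hN0]; linarith
  have e : 2 * (c ^ 3 / 8) / N * (Cn.card * c ^ 3) = (c ^ 3) ^ 2 / 4 * (Cn.card / N) := by ring
  rw [e]
  nlinarith [sq_nonneg (c ^ 3)]

lemma pos_of_symm {Ω : Type} [MeasurableSpace Ω] (ν : Measure Ω) [IsProbabilityMeasure ν]
    (φ : Ω → Ω) (hφ : MeasurePreserving φ ν ν) (h : Ω → ℝ) (hm : Measurable h)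
    (hb : ∀ x, ‖h x‖ ≤ 1) (h0 : ∀ x, 0 ≤ h x + h (φ x)) (S : Set Ω) (hS : 0 < ν S)
    (h1 : ∀ x ∈ S, 0 < h x + h (φ x)) : 0 < ∫ x, h x ∂ν := by
  have hi : Integrable h ν :=
    Integrable.of_bound hm.aestronglyMeasurable 1 (Filter.Eventually.of_forall hb)
  have hi' : Integrable (fun x => h (φ x)) ν := hφ.integrable_comp_of_integrable hi
  have e : ∫ x, h (φ x) ∂ν = ∫ x, h x ∂ν := by
    rw [← integral_map hφ.measurable.aemeasurable hm.aestronglyMeasurable, hφ.map_eq]
  have := (integral_pos_iff_support_of_nonneg (f := fun x => h x + h (φ x)) h0 (hi.add hi')).mpr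
    (hS.trans_le (measure_mono fun x hx => (h1 x hx).ne'))
  rw [integral_add hi hi', e] at this
  linarith

instance : IsProbabilityMeasure gg := by unfold gg; infer_instance

lemma gg_neg : MeasurePreserving (Prod.map id fun y : ℝ => -y) gg gg :=
  (MeasurePreserving.id _).prod ⟨by fun_prop, by rw [gaussianReal_map_neg, neg_zero]⟩

lemma gg_S : gg (({0}ᶜ : Set ℝ) ×ˢ Set.univ) = 1 := by
  have := nullSingletonClass_gaussianReal (μ := 0) (v := 1) one_ne_zero
  unfold gg
  rw [Measure.prod_prod, prob_compl_eq_one_sub (measurableSet_singleton _)]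
  simp

lemma th_pair (u w v : ℝ) (h : 0 < u * w) : 0 < th u * th (w + v) + th u * th (w - v) := by
  have e : th (w - v) = -th (v - w) := by rw [← th_neg, neg_sub]
  rw [← mul_add, e]
  rcases pos_and_pos_or_neg_and_neg_of_mul_pos h with ⟨h1, h2⟩ | ⟨h1, h2⟩
  · have a1 := th_mono h1
    have a2 := th_mono (by linarith : v - w < w + v)
    rw [th_zero] at a1
    exact mul_pos a1 (by linarith)
  · have a1 := th_mono h1
    have a2 := th_mono (by linarith : w + v < v - w)
    rw [th_zero] at a1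
    exact mul_pos_of_neg_of_neg a1 (by linarith)

theorem result : ∃ E : (N : ℕ) → Finset (Finset (Fin N)), (∀ N, ∀ e ∈ E N, e.card = 3) ∧
    (∀ N v r, (ball (E N) v r).card ≤ 4) ∧ ∀ β t : ℝ, 0 < β → 0 < t →
      ∃ c > 0, ∀ N, 4 ≤ N → c ≤ chaosC (E N) β t ∧ c ≤ chaosD (E N) β t := by
  refine ⟨EE, fun N => card_edge, fun N => ball_card, fun β t hβ ht => ?_⟩
  have hth := th_cont.measurable
  have hp := Real.exp_pos (-t)
  have hp1 : Real.exp (-t) ≤ 1 := Real.exp_le_one_iff.mpr (by linarith)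
  have : IsProbabilityMeasure (bern (Real.exp (-t))) := ⟨by
    simp only [bern, Measure.add_apply, Measure.smul_apply, measure_univ, smul_eq_mul, mul_one]
    rw [← ENNReal.ofReal_add hp.le (by linarith)]
    simp⟩
  have bd : ∀ u v, ‖th u * th v‖ ≤ 1 := fun u v => by
    rw [norm_mul]; exact mul_le_one₀ (th_abs _) (norm_nonneg _) (th_abs _)
  have k1 : ∀ x : ℝ × ℝ, x.1 ≠ 0 → 0 < th (β * x.1) *
      th (β * (Real.exp (-t) * x.1 + √(1 - Real.exp (-2 * t)) * x.2)) + th (β * x.1) *
      th (β * (Real.exp (-t) * x.1 + √(1 - Real.exp (-2 * t)) * -x.2)) := by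
    intro x hx
    have := th_pair (β * x.1) (β * (Real.exp (-t) * x.1)) (β * (√(1 - Real.exp (-2 * t)) * x.2))
      (by
        have : β * x.1 * (β * (Real.exp (-t) * x.1)) = β ^ 2 * Real.exp (-t) * x.1 ^ 2 := by ring
        rw [this]; positivity)
    convert this using 3 <;> ring
  have c1 := pos_of_symm gg _ gg_neg (fun x => th (β * x.1) *
      th (β * (Real.exp (-t) * x.1 + √(1 - Real.exp (-2 * t)) * x.2))) (by fun_prop)
    (fun _ => bd _ _) (fun x => by
      by_cases hx : x.1 = 0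
      · simp [hx, th_zero]
      · exact (k1 x hx).le) (({0}ᶜ : Set ℝ) ×ˢ Set.univ) (by rw [gg_S]; exact one_pos)
    fun x hx => k1 x hx.1
  have hb : Measurable fun x : (ℝ × ℝ) × Bool => if x.2 then x.1.1 else x.1.2 :=
    Measurable.ite (measurable_snd (measurableSet_singleton true)) (by fun_prop) (by fun_prop)
  have c2 := pos_of_symm (gg.prod (bern (Real.exp (-t)))) _
    (gg_neg.prod (MeasurePreserving.id _))
    (fun x => th (β * x.1.1) * th (β * if x.2 then x.1.1 else x.1.2)) (by fun_prop)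
    (fun _ => bd _ _) (fun ⟨⟨x, y⟩, B⟩ => by
      cases B
      · simp [th_neg]
      · simpa using mul_self_nonneg (th (β * x)))
    ((({0}ᶜ : Set ℝ) ×ˢ Set.univ) ×ˢ {true}) (by
      rw [Measure.prod_prod, gg_S, one_mul]
      simp [bern, hp]) fun ⟨⟨x, y⟩, B⟩ hx => by
      have h1 : x ≠ 0 := hx.1.1
      have h2 : B = true := hx.2
      subst h2
      have h3 : th (β * x) ≠ 0 := by
        rw [← th_zero]
        exact th_mono.injective.ne (mul_ne_zero hβ.ne' h1)
      simpa using mul_self_pos.mpr h3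
  refine ⟨min _ _, lt_min (pow_pos (div_pos (pow_pos c1 3) (by norm_num : (0 : ℝ) < 8)) 2)
    (pow_pos (div_pos (pow_pos c2 3) (by norm_num : (0 : ℝ) < 8)) 2), fun N hN => ⟨?_, ?_⟩⟩
  · have := main gg (fun x => x.1)
      (fun x => Real.exp (-t) * x.1 + √(1 - Real.exp (-2 * t)) * x.2) measurable_fst
      (by fun_prop) β _ rfl c1 hN
    exact (min_le_left _ _).trans this
  · have := main (gg.prod (bern (Real.exp (-t)))) (fun x => x.1.1)
      (fun x => if x.2 then x.1.1 else x.1.2) (by fun_prop) hb β _ rfl c2 hN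
    exact (min_le_right _ _).trans this

end Pool.Agent.Results.MP_f93cde_pr.Counterexample
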